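import Pool.Agent.Lib.MP_ab3cdc_lc.Outer

namespace Pool.Agent.Results.MP_ab3cdc_lc.Equal

open Pool.Agent.Lib.MP_ab3cdc_lc

/-- For every finite terminal alphabet `A` with at least two letters, every countably infinite
set `X` of variables and every universe variable `w`, the FC-UCQ languages are exactly the
EP-C languages. -/
theorem result (A X : Type) [Finite A] [Nontrivial A] [Countable X] [Infinite X] (w : X) :
    fcUcqClass A w = epcClass A w :=
  classes_eq w

end Pool.Agent.Results.MP_ab3cdc_lc.Equal
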