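import Pool.Agent.Lib.MP_ab3cdc_lc.Reg.ROuter

namespace Pool.Agent.Results.MP_ab3cdc_lc.RegularConstraints

open Pool.Agent.Lib.MP_ab3cdc_lc.Reg

/-- For every finite terminal alphabet `A`, every infinite set `X` of variables, every universe
variable `w` and every list `ys` of head variables, unions of conjunctive queries with regular
constraints (all variables are factors of the universe word) define the same relations between a
word and tuples of its factors as existential positive formulas over word equations with regular
constraints (only the head variables are factors, all others range over all words). -/
theorem result (A X : Type) [Finite A] [Infinite X] (w : X) (ys : List X) :
    ucqClass A w ys = eprClass A w ys :=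
  classes_eq_reg w ys

end Pool.Agent.Results.MP_ab3cdc_lc.RegularConstraints
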